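import Mathlib

namespace Pool.Agent.Results.MP_469fc6_nt.Counterexample

/-- Fast modular exponentiation (`fuel` bounds the number of binary digits of the exponent). -/
def powMod (m : ℕ) : ℕ → ℕ → ℕ → ℕ
  | 0, _, _ => 1 % m
  | fuel + 1, a, e =>
    bif e % 2 == 0 then powMod m fuel (a * a % m) (e / 2)
    else a * powMod m fuel (a * a % m) (e / 2) % m

theorem powMod_eq (m : ℕ) : ∀ (fuel a e : ℕ), e < 2 ^ fuel → powMod m fuel a e = a ^ e % m := by
  intro fuel
  induction fuel with
  | zero =>
    intro a e he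
    have : e = 0 := by simpa using he
    subst this
    simp [powMod]
  | succ fuel ih =>
    intro a e he
    have he2 : e / 2 < 2 ^ fuel := by
      rw [pow_succ] at he; omega
    have h1 := ih (a * a % m) (e / 2) he2
    have h2 : (a * a % m) ^ (e / 2) % m = (a * a) ^ (e / 2) % m := (Nat.pow_mod _ _ _).symm
    rw [h2] at h1
    unfold powMod
    rw [h1]
    rcases Nat.mod_two_eq_zero_or_one e with h | h
    · have he' : e = 2 * (e / 2) := by omega
      rw [h]
      simp only [beq_self_eq_true, cond_true]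
      conv_rhs => rw [he']
      rw [pow_mul, pow_two]
    · have he' : e = 2 * (e / 2) + 1 := by omega
      rw [h]
      have : ((1 : ℕ) == 0) = false := rfl
      rw [this]
      simp only [cond_false]
      conv_rhs => rw [he']
      rw [pow_succ, pow_mul, pow_two, mul_comm, Nat.mod_mul_mod]

/-- Lucas' primality test, phrased with natural numbers only. -/
theorem prime_of_cert (p a fuel : ℕ) (hp : 1 < p) (hf : p - 1 < 2 ^ fuel) (L : List ℕ)
    (hL : ∀ q ∈ L, q.Prime) (hprod : L.prod = p - 1) (h1 : powMod p fuel a (p - 1) = 1)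
    (h2 : ∀ q ∈ L, powMod p fuel a ((p - 1) / q) ≠ 1) : p.Prime := by
  have key : ∀ e : ℕ, e ≤ p - 1 → ((a : ZMod p) ^ e = 1 ↔ powMod p fuel a e = 1) := by
    intro e he
    have h : ((a : ZMod p) ^ e = 1) ↔ ((a ^ e : ℕ) : ZMod p) = ((1 : ℕ) : ZMod p) := by
      push_cast; rfl
    rw [h, ZMod.natCast_eq_natCast_iff, Nat.ModEq, Nat.mod_eq_of_lt hp,
      powMod_eq _ _ _ _ (lt_of_le_of_lt he hf)]
  refine lucas_primality p (a : ZMod p) ((key _ le_rfl).2 h1) ?_
  intro q hq hqd
  rw [Ne, key _ (Nat.div_le_self _ _)]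
  apply h2
  rw [← hprod] at hqd
  obtain ⟨b, hb, hqb⟩ := (Nat.Prime.prime hq).dvd_prod_iff.1 hqd
  have := (Nat.prime_dvd_prime_iff_eq hq (hL b hb)).1 hqb
  rwa [this]

theorem prime_p : Nat.Prime 129140227 := by norm_num

theorem prime_q : Nat.Prime 256572153302107 := by
  refine prime_of_cert _ 2 50 (by norm_num) (by norm_num) [2, 3, 1931, 991, 22346131] ?_
    (by norm_num) (by decide +kernel) (by decide +kernel)
  intro q hq
  simp only [List.mem_cons, List.not_mem_nil, or_false] at hq
  rcases hq with rfl | rfl | rfl | rfl | rfl <;> norm_num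

theorem prime_r1 : Nat.Prime 137002507849 := by
  refine prime_of_cert _ 29 40 (by norm_num) (by norm_num) [2, 2, 2, 3, 3, 23, 7489, 11047] ?_
    (by norm_num) (by decide +kernel) (by decide +kernel)
  intro q hq
  simp only [List.mem_cons, List.not_mem_nil, or_false] at hq
  rcases hq with rfl | rfl | rfl | rfl | rfl | rfl | rfl | rfl <;> norm_num

theorem prime_r2 : Nat.Prime 153174091919 := by
  refine prime_of_cert _ 7 40 (by norm_num) (by norm_num) [2, 53, 103, 14029501] ?_
    (by norm_num) (by decide +kernel) (by decide +kernel)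
  intro q hq
  simp only [List.mem_cons, List.not_mem_nil, or_false] at hq
  rcases hq with rfl | rfl | rfl | rfl <;> norm_num

theorem prime_r : Nat.Prime 225205396855537107298933866373 := by
  refine prime_of_cert _ 2 100 (by norm_num) (by norm_num)
    [2, 2, 3, 894301, 137002507849, 153174091919] ?_
    (by norm_num) (by decide +kernel) (by decide +kernel)
  intro q hq
  simp only [List.mem_cons, List.not_mem_nil, or_false] at hq
  rcases hq with rfl | rfl | rfl | rfl | rfl | rfl
  · norm_num
  · norm_num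
  · norm_num
  · norm_num
  · exact prime_r1
  · exact prime_r2

open ArithmeticFunction in
theorem sigma_gen {p q r : ℕ} (hp : p.Prime) (hq : q.Prime) (hr : r.Prime) (h3p : 3 < p)
    (hpq : p < q) (hqr : q < r) (a : ℕ) :
    sigma 1 (3 ^ a * p * q * r) =
      (∑ k ∈ Finset.range (a + 1), 3 ^ k) * (p + 1) * (q + 1) * (r + 1) := by
  have s : ∀ p : ℕ, p.Prime → sigma 1 p = p + 1 := by
    intro p hp
    rw [sigma_one_apply, hp.sum_divisors, add_comm]
  have cop : ∀ {x y : ℕ}, x.Prime → y.Prime → x < y → Nat.Coprime x y := fun hx hy hxy =>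
    (Nat.coprime_primes hx hy).2 hxy.ne
  have c3 : Nat.Coprime (3 ^ a) p := (cop Nat.prime_three hp h3p).pow_left a
  have c2 : Nat.Coprime (3 ^ a * p) q :=
    Nat.Coprime.mul_left ((cop Nat.prime_three hq (by omega)).pow_left a) (cop hp hq hpq)
  have c1 : Nat.Coprime (3 ^ a * p * q) r :=
    Nat.Coprime.mul_left (Nat.Coprime.mul_left
      ((cop Nat.prime_three hr (by omega)).pow_left a) (cop hp hr (by omega))) (cop hq hr hqr)
  rw [isMultiplicative_sigma.map_mul_of_coprime c1, isMultiplicative_sigma.map_mul_of_coprime c2,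
    isMultiplicative_sigma.map_mul_of_coprime c3, s _ hp, s _ hq, s _ hr,
    sigma_one_apply_prime_pow Nat.prime_three]

/-- The number `n = 3^16 * 129140227 * 256572153302107 * 225205396855537107298933866373` is
2-hyperperfect, i.e. `n = 1 + 2 (σ(n) - n - 1)`, but is not of the form `3^(k-1) (3^k - 2)`. -/
theorem result : ∃ n : ℕ, 0 < n ∧
    (n : ℤ) = 1 + 2 * ((ArithmeticFunction.sigma 1 n : ℤ) - n - 1) ∧
    ¬ ∃ k : ℕ, 1 ≤ k ∧ Nat.Prime (3 ^ k - 2) ∧ n = 3 ^ (k - 1) * (3 ^ k - 2) := by
  have hs := sigma_gen prime_p prime_q prime_r (by norm_num) (by norm_num) (by norm_num) 16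
  obtain ⟨n, hn⟩ : ∃ n, n = 3 ^ 16 * 129140227 * 256572153302107 *
    225205396855537107298933866373 := ⟨_, rfl⟩
  rw [← hn] at hs
  have hn' : n = 321210648228113097833688328004214356646685508531160153551637 := by
    rw [hn]; norm_num
  have hs' : ArithmeticFunction.sigma 1 n =
      481815972342169646750532492006321534970028262796740230327456 := by
    rw [hs]
    simp only [Finset.sum_range_succ, Finset.sum_range_zero]
    norm_num
  refine ⟨n, by omega, ?_, ?_⟩
  · rw [hs', hn']; norm_num
  · rintro ⟨k, hk, -, h⟩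
    rcases Nat.lt_or_ge k 63 with hk' | hk'
    · have h1 : 3 ^ (k - 1) * (3 ^ k - 2) ≤ 3 ^ 61 * 3 ^ 62 :=
        Nat.mul_le_mul (Nat.pow_le_pow_right (by norm_num) (by omega))
          ((Nat.sub_le _ _).trans (Nat.pow_le_pow_right (by norm_num) (by omega)))
      rw [← h, hn'] at h1
      norm_num at h1
    · have h1 : 3 ^ 62 * (3 ^ 63 - 2) ≤ 3 ^ (k - 1) * (3 ^ k - 2) :=
        Nat.mul_le_mul (Nat.pow_le_pow_right (by norm_num) (by omega))
          (Nat.sub_le_sub_right (Nat.pow_le_pow_right (by norm_num) (by omega)) _)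
      rw [← h, hn'] at h1
      norm_num at h1

end Pool.Agent.Results.MP_469fc6_nt.Counterexample
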